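import Pool.Agent.Q125.AP.Count

/-!
# Finite 2-groups whose automorphism groups are smaller than every power of the order

`Nat.card (MulAut G)` is the order of the automorphism group of `G`, `Nat.card G` the order of `G`,
`Nat.totient` is Euler's function.

For `n ≥ 5` and `k ≥ 0` let `R = ℤ/2^(k+1)` and let `G` be the group `Gp n R`
(`Pool.Agent.Q125.AP.Defs`): the semidirect product of the group `E` of class two with generators
`e_1, …, e_n`, in which neighbours in the cycle `ℤ/n` commute and the commutators of the other pairs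
are independent and central (everything over `R`), with the group of order two generated by an
element `t` which inverts all `e_i`.  Then `|G| = 2^((k+1)(n+w)+1)` with `w = n(n-3)/2`, while
`|Aut G| ≤ C(n) 2^(2n(k+1))`: an automorphism acting trivially modulo `2` maps `e_i` to
`e_i^{d_i} z_i` because of the commutation relations, and the central parts are determined up to
elements of order two by the relations `t² = (t e_i)² = 1`.
-/

set_option autoImplicit false

namespace Pool.Agent.Results.MP_a94181_al.FewAutomorphisms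

open Pool.Agent.Q125.AP

/-- For all real `a > 0` and all `C` there is a finite 2-group `G` with
`C |Aut G| < φ(|G|)^a`.  Hence there is no constant `a > 0` with `|Aut G| ≥ φ(|G|)^a` for all finite
groups, nor for all finite nilpotent groups. -/
theorem result :
    (∀ a C : ℝ, 0 < a → ∃ (G : Type) (_ : Group G), Finite G ∧ IsPGroup 2 G ∧
      C * (Nat.card (MulAut G) : ℝ) < ((Nat.totient (Nat.card G) : ℕ) : ℝ) ^ a) ∧
    (¬ ∃ a : ℝ, 0 < a ∧ ∀ (G : Type) [Group G] [Finite G],
      ((Nat.totient (Nat.card G) : ℕ) : ℝ) ^ a ≤ (Nat.card (MulAut G) : ℝ)) ∧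
    (¬ ∃ a : ℝ, 0 < a ∧ ∀ (G : Type) [Group G] [Finite G], Group.IsNilpotent G →
      ((Nat.totient (Nat.card G) : ℕ) : ℝ) ^ a ≤ (Nat.card (MulAut G) : ℝ)) := by
  have main : ∀ a C : ℝ, 0 < a → ∃ (G : Type) (_ : Group G), Finite G ∧ IsPGroup 2 G ∧
      C * (Nat.card (MulAut G) : ℝ) < ((Nat.totient (Nat.card G) : ℕ) : ℝ) ^ a := by
    intro a C ha
    obtain ⟨q, hq⟩ := exists_nat_gt (13 / a)
    have hq0 : 0 < q := by
      rcases Nat.eq_zero_or_pos q with h | h
      · exfalso
        rw [h] at hq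
        have : 0 < 13 / a := by positivity
        simp only [Nat.cast_zero] at hq
        linarith
      · exact h
    set n : ℕ := 2 * q + 4 with hn
    have hn5 : 5 ≤ n := by omega
    have : NeZero n := ⟨by omega⟩
    set w : ℕ := Nat.card (O n) with hw
    have hwq : q * q ≤ w := card_O q
    have haw : (2 * n + 1 : ℝ) ≤ a * (n + w) := by
      have h1 : 13 < a * q := by
        rw [div_lt_iff₀ ha] at hq
        linarith
      have h2 : (1 : ℝ) ≤ q := by exact_mod_cast hq0
      have h3 : ((q : ℝ) * q) ≤ w := by exact_mod_cast hwq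
      have h4 : (n : ℝ) = 2 * q + 4 := by rw [hn]; push_cast; ring
      have h5 : a * (q * q) ≤ a * (n + w) := by
        apply mul_le_mul_of_nonneg_left _ ha.le
        have : (0 : ℝ) ≤ n := by positivity
        linarith
      have h6 : 13 * (q : ℝ) ≤ a * (q * q) := by nlinarith
      rw [h4] at h5 ⊢
      nlinarith
    obtain ⟨k, hk⟩ := exists_nat_gt (C * Cn n)
    have hk2 : C * (Cn n : ℝ) < 2 ^ (k + 1) := by
      have h1 : (k : ℝ) < 2 ^ (k + 1) := by
        have : k < 2 ^ (k + 1) := (Nat.lt_two_pow_self).trans_le (Nat.pow_le_pow_right (by norm_num) (by omega))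
        exact_mod_cast this
      linarith
    refine ⟨Gp n (Rk k), inferInstance, finite_Gp, ?_, ?_⟩
    · exact IsPGroup.of_card card_Gp
    · have hA : (Nat.card (MulAut (Gp n (Rk k))) : ℝ) ≤ (Cn n : ℝ) * 2 ^ ((k + 1) * (2 * n)) := by
        exact_mod_cast card_aut_le (n := n) (k := k) hn5
      have hA0 : (0 : ℝ) ≤ (Nat.card (MulAut (Gp n (Rk k))) : ℝ) := by positivity
      rw [card_Gp, Nat.totient_prime_pow_succ Nat.prime_two]
      have h7 : (((2 ^ ((k + 1) * (n + Nat.card (O n))) * (2 - 1) : ℕ) : ℝ)) ^ a =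
          (2 : ℝ) ^ ((((k + 1 : ℕ) : ℝ)) * (a * (n + w))) := by
        have : ((2 ^ ((k + 1) * (n + Nat.card (O n))) * (2 - 1) : ℕ) : ℝ) =
            (2 : ℝ) ^ (((k + 1) * (n + w) : ℕ) : ℝ) := by
          rw [Real.rpow_natCast, ← hw]
          push_cast
          norm_num
        rw [this, ← Real.rpow_mul (by norm_num)]
        congr 1
        push_cast
        ring
      rw [h7]
      have h8 : (2 : ℝ) ^ ((((k + 1 : ℕ) : ℝ)) * (2 * n + 1)) ≤
          (2 : ℝ) ^ ((((k + 1 : ℕ) : ℝ)) * (a * (n + w))) := by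
        apply Real.rpow_le_rpow_of_exponent_le (by norm_num)
        exact mul_le_mul_of_nonneg_left haw (by positivity)
      refine lt_of_lt_of_le ?_ h8
      have h9 : (2 : ℝ) ^ ((((k + 1 : ℕ) : ℝ)) * (2 * n + 1)) =
          2 ^ (k + 1) * 2 ^ ((k + 1) * (2 * n)) := by
        have : (((k + 1 : ℕ) : ℝ)) * (2 * n + 1) = (((k + 1) + (k + 1) * (2 * n) : ℕ) : ℝ) := by
          push_cast; ring
        rw [this, Real.rpow_natCast, pow_add]
      rw [h9]
      have hP : (0 : ℝ) < 2 ^ ((k + 1) * (2 * n)) := by positivity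
      rcases le_or_gt C 0 with hC | hC
      · have h10 : C * (Nat.card (MulAut (Gp n (Rk k))) : ℝ) ≤ 0 :=
          mul_nonpos_of_nonpos_of_nonneg hC hA0
        have h11 : (0 : ℝ) < 2 ^ (k + 1) * 2 ^ ((k + 1) * (2 * n)) := by positivity
        linarith
      · calc C * (Nat.card (MulAut (Gp n (Rk k))) : ℝ)
            ≤ C * ((Cn n : ℝ) * 2 ^ ((k + 1) * (2 * n))) := mul_le_mul_of_nonneg_left hA hC.le
          _ = (C * (Cn n : ℝ)) * 2 ^ ((k + 1) * (2 * n)) := by ring
          _ < 2 ^ (k + 1) * 2 ^ ((k + 1) * (2 * n)) := mul_lt_mul_of_pos_right hk2 hP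
  refine ⟨main, ?_, ?_⟩
  · rintro ⟨a, ha, h⟩
    obtain ⟨G, hG, hfin, _, hlt⟩ := main a 1 ha
    have := h G
    rw [one_mul] at hlt
    linarith
  · rintro ⟨a, ha, h⟩
    obtain ⟨G, hG, hfin, hp, hlt⟩ := main a 1 ha
    have := h G hp.isNilpotent
    rw [one_mul] at hlt
    linarith

end Pool.Agent.Results.MP_a94181_al.FewAutomorphisms
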